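import Mathlib
import Pool.Agent.Helper568.Sm4

set_option autoImplicit false

open Set Filter Topology BoundedContinuousFunction
open scoped ContDiff

namespace Pool.Agent.Y286.CD

open Pool.Agent.Helper568.Sm

/-- the space of null sequences -/
abbrev C0 := ZeroAtInftyContinuousMap ℕ ℝ

theorem abs_coord_le (x : C0) (n : ℕ) : |x n| ≤ ‖x‖ := x.toBCF.norm_coe_le_norm n

/-- coordinate functional -/
noncomputable def co (n : ℕ) : C0 →L[ℝ] ℝ :=
  LinearMap.mkContinuous ⟨⟨fun x => x n, fun _ _ => rfl⟩, fun _ _ => rfl⟩ 1 (fun x => by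
    rw [one_mul]; exact x.toBCF.norm_coe_le_norm n)

@[simp] theorem co_apply (n : ℕ) (x : C0) : co n x = x n := rfl

theorem norm_le_of {x : C0} {r : ℝ} (hr : 0 ≤ r) (h : ∀ n, |x n| ≤ r) : ‖x‖ ≤ r := by
  rw [← ZeroAtInftyContinuousMap.norm_toBCF_eq_norm]
  exact (BoundedContinuousFunction.norm_le hr).2 h

theorem coord_tendsto (x : C0) : Tendsto (fun n => x n) atTop (𝓝 0) := by
  have h := x.zero_at_infty'
  rw [cocompact_eq_cofinite, Nat.cofinite_eq_atTop] at h
  exact h

theorem coord_fin (x : C0) {δ : ℝ} (hδ : 0 < δ) : {n : ℕ | δ ≤ |x n|}.Finite := by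
  have h := (coord_tendsto x).abs
  rw [abs_zero] at h
  have h2 := h.eventually (gt_mem_nhds hδ)
  obtain ⟨N, hN⟩ := eventually_atTop.1 h2
  refine (Set.finite_lt_nat N).subset fun n hn => ?_
  by_contra hcon
  exact absurd (hN n (not_lt.1 hcon)) (not_lt.2 hn)

/-- index set -/
abbrev I := ℕ ⊕ (ℕ × ℕ × Bool)

/-- a sign -/
noncomputable def sg (s : Bool) : ℝ := if s then 1 / 2 else -(1 / 2)

theorem abs_sg (s : Bool) : |sg s| = 1 / 2 := by
  unfold sg
  cases s
  · simp
  · simp

/-- small weights -/
noncomputable def w (n : ℕ) : ℝ := 1 / ((n : ℝ) + 1) / 2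

theorem w_pos (n : ℕ) : 0 < w n := by unfold w; positivity

theorem w_le' (n : ℕ) : w n ≤ 1 / 2 := by
  unfold w
  have : (0 : ℝ) ≤ n := Nat.cast_nonneg n
  have h1 : 1 / ((n : ℝ) + 1) ≤ 1 := by
    rw [div_le_one (by positivity)]
    linarith
  linarith

theorem w_le (n : ℕ) : w n ≤ 1 := by linarith [w_le' n]

theorem w_tendsto : Tendsto w atTop (𝓝 0) := by
  have := (tendsto_one_div_add_atTop_nhds_zero_nat (𝕜 := ℝ)).div_const 2
  rw [zero_div] at this
  exact this

/-- evaluation functionals -/
noncomputable def ev : I → C0 →L[ℝ] ℝ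
  | Sum.inl n => co n
  | Sum.inr (n, m, s) => if n = m then 0 else (1 - w n / 2) • co n + sg s • co m

/-- small functionals -/
noncomputable def D : I → C0 →L[ℝ] ℝ
  | Sum.inl n => w n • co n
  | Sum.inr (n, m, _) => if n = m then 0 else w n • co m

theorem ev_inl (n : ℕ) (x : C0) : ev (Sum.inl n) x = x n := rfl

theorem ev_inr {n m : ℕ} (h : n ≠ m) (s : Bool) (x : C0) :
    ev (Sum.inr (n, m, s)) x = (1 - w n / 2) * x n + sg s * x m := by
  unfold ev
  simp [h]

theorem ev_diag (n : ℕ) (s : Bool) (x : C0) : ev (Sum.inr (n, n, s)) x = 0 := by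
  unfold ev
  simp

theorem D_inl (n : ℕ) (x : C0) : D (Sum.inl n) x = w n * x n := rfl

theorem D_inr {n m : ℕ} (h : n ≠ m) (s : Bool) (x : C0) :
    D (Sum.inr (n, m, s)) x = w n * x m := by
  unfold D
  simp [h]

theorem D_diag (n : ℕ) (s : Bool) (x : C0) : D (Sum.inr (n, n, s)) x = 0 := by
  unfold D
  simp

theorem ev_le (i : I) (x : C0) : |ev i x| ≤ 2 * ‖x‖ := by
  have h0 := norm_nonneg x
  rcases i with n | ⟨n, m, s⟩
  · rw [ev_inl]
    have := abs_coord_le x n
    linarith
  · by_cases h : n = m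
    · subst h
      rw [ev_diag, abs_zero]
      positivity
    · rw [ev_inr h]
      have h1 := abs_coord_le x n
      have h2 := abs_coord_le x m
      have h3 := w_pos n
      have h4 := w_le n
      have h5 : |(1 - w n / 2) * x n| ≤ ‖x‖ := by
        rw [abs_mul, abs_of_nonneg (by linarith)]
        nlinarith [abs_nonneg (x n)]
      have h6 : |sg s * x m| ≤ ‖x‖ := by
        rw [abs_mul, abs_sg]
        linarith
      have := abs_add_le ((1 - w n / 2) * x n) (sg s * x m)
      linarith

theorem D_le (i : I) (x : C0) : |D i x| ≤ ‖x‖ := by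
  have h0 := norm_nonneg x
  rcases i with n | ⟨n, m, s⟩
  · rw [D_inl, abs_mul, abs_of_pos (w_pos n)]
    have := abs_coord_le x n
    nlinarith [w_le n, w_pos n, abs_nonneg (x n)]
  · by_cases h : n = m
    · subst h
      rw [D_diag, abs_zero]
      exact h0
    · rw [D_inr h, abs_mul, abs_of_pos (w_pos n)]
      have := abs_coord_le x m
      nlinarith [w_le n, w_pos n, abs_nonneg (x m)]

theorem D_fin (x : C0) {δ : ℝ} (hδ : 0 < δ) : {i : I | δ < |D i x|}.Finite := by
  have h1 := (w_tendsto.mul_const ‖x‖)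
  rw [zero_mul] at h1
  obtain ⟨N, hN⟩ := eventually_atTop.1 (h1.eventually (gt_mem_nhds hδ))
  have hfin := coord_fin x hδ
  refine (((Set.finite_lt_nat N).image Sum.inl).union
    (((Set.finite_lt_nat N).prod (hfin.prod (Set.finite_univ (α := Bool)))).image Sum.inr)).subset
    fun i hi => ?_
  have key : ∀ n m, δ < w n * |x m| → n < N ∧ δ ≤ |x m| := by
    intro n m h
    have h2 := abs_coord_le x m
    refine ⟨?_, ?_⟩
    · by_contra hcon
      have h3 := hN n (not_lt.1 hcon)
      have h4 : w n * |x m| ≤ w n * ‖x‖ := mul_le_mul_of_nonneg_left h2 (w_pos n).le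
      linarith
    · nlinarith [w_le n, abs_nonneg (x m)]
  rcases i with n | ⟨n, m, s⟩
  · left
    refine ⟨n, ?_, rfl⟩
    rw [Set.mem_ofPred_eq, D_inl, abs_mul, abs_of_pos (w_pos n)] at hi
    exact (key n n hi).1
  · right
    by_cases h : n = m
    · subst h
      rw [Set.mem_ofPred_eq, D_diag, abs_zero] at hi
      exact absurd hi (not_lt.2 hδ.le)
    · rw [Set.mem_ofPred_eq, D_inr h, abs_mul, abs_of_pos (w_pos n)] at hi
      exact ⟨(n, m, s), ⟨(key n m hi).1, (key n m hi).2, Set.mem_univ _⟩, rfl⟩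

/-- the embedding into bounded functions -/
noncomputable def T : C0 →ₗ[ℝ] (I →ᵇ ℝ) where
  toFun x := BoundedContinuousFunction.ofNormedAddCommGroupDiscrete (fun i => ev i x) (2 * ‖x‖)
    (fun i => ev_le i x)
  map_add' x y := by ext i; exact map_add (ev i) x y
  map_smul' c x := by ext i; exact map_smul (ev i) c x

theorem T_apply (x : C0) (i : I) : T x i = ev i x := rfl

theorem T_le (x : C0) : ‖T x‖ ≤ 2 * ‖x‖ :=
  (BoundedContinuousFunction.norm_le (by positivity)).2 fun i => ev_le i x

theorem T_ge (x : C0) : ‖x‖ ≤ ‖T x‖ :=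
  norm_le_of (norm_nonneg _) fun n => (T x).norm_coe_le_norm (Sum.inl n)

theorem T_inj : Function.Injective T := by
  rw [injective_iff_map_eq_zero]
  intro x hx
  have h := T_ge x
  rw [hx, norm_zero] at h
  exact norm_le_zero_iff.1 h

/-- null sequences with the first new norm -/
def Y := C0

noncomputable instance : AddCommGroup Y := inferInstanceAs (AddCommGroup C0)
noncomputable instance : Module ℝ Y := inferInstanceAs (Module ℝ C0)
/-- linear map on the renormed space -/
noncomputable def TY : Y →ₗ[ℝ] (I →ᵇ ℝ) := T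
noncomputable instance : NormedAddCommGroup Y :=
  NormedAddCommGroup.induced Y (I →ᵇ ℝ) TY T_inj
noncomputable instance : NormedSpace ℝ Y := NormedSpace.induced ℝ Y (I →ᵇ ℝ) TY

/-- identity -/
noncomputable def eL : C0 ≃ₗ[ℝ] Y := LinearEquiv.refl ℝ C0

theorem eL_norm (x : C0) : ‖eL x‖ = ‖T x‖ := rfl

/-- identity as an isomorphism -/
noncomputable def e : C0 ≃L[ℝ] Y :=
  eL.toContinuousLinearEquivOfBounds 2 1 (fun x => T_le x) (fun y => by
    rw [one_mul]
    exact T_ge (eL.symm y))

theorem e_norm (x : C0) : ‖e x‖ = ‖T x‖ := rfl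

instance : CompleteSpace Y := by
  exact (completeSpace_congr (e := e.toEquiv) e.isUniformEmbedding).1 inferInstance

/-- functionals on the new space -/
noncomputable def evY (i : I) : Y →L[ℝ] ℝ := (ev i).comp (e.symm : Y →L[ℝ] C0)
/-- functionals on the new space -/
noncomputable def DY (i : I) : Y →L[ℝ] ℝ := (D i).comp (e.symm : Y →L[ℝ] C0)

theorem evY_apply (i : I) (x : C0) : evY i (e x) = ev i x := by
  unfold evY; simp

theorem DY_apply (i : I) (x : C0) : DY i (e x) = D i x := by
  unfold DY; simp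

theorem hev (i : I) (y : Y) : |evY i y| ≤ ‖y‖ := by
  obtain ⟨x, rfl⟩ := e.surjective y
  rw [evY_apply, e_norm, ← T_apply]
  exact (T x).norm_coe_le_norm i

theorem hD (i : I) (y : Y) : |DY i y| ≤ 2 * ‖y‖ := by
  obtain ⟨x, rfl⟩ := e.surjective y
  rw [DY_apply, e_norm]
  have h1 := D_le i x
  have h2 := T_ge x
  have := norm_nonneg x
  linarith

theorem hfin (y : Y) (δ : ℝ) (hδ : 0 < δ) : {i | δ < |DY i y|}.Finite := by
  obtain ⟨x, rfl⟩ := e.surjective y
  simp only [DY_apply]
  exact D_fin x hδ

theorem exists_coord {x : C0} (hx : x ≠ 0) : ∃ n, |x n| = ‖x‖ := by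
  have h0 : 0 < ‖x‖ := norm_pos_iff.2 hx
  have hf := coord_fin x (δ := ‖x‖ / 2) (by positivity)
  have hne : {n : ℕ | ‖x‖ / 2 ≤ |x n|}.Nonempty := by
    by_contra hcon
    rw [Set.not_nonempty_iff_eq_empty] at hcon
    have : ‖x‖ ≤ ‖x‖ / 2 := norm_le_of (by positivity) fun n => by
      by_contra h
      have : n ∈ {n : ℕ | ‖x‖ / 2 ≤ |x n|} := (not_le.1 h).le
      rw [hcon] at this
      exact this
    linarith
  obtain ⟨n, hn, hmax⟩ := Set.exists_max_image _ (fun n => |x n|) hf hne
  refine ⟨n, le_antisymm (abs_coord_le x n) ?_⟩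
  refine norm_le_of (abs_nonneg _) fun m => ?_
  by_cases hm : m ∈ {n : ℕ | ‖x‖ / 2 ≤ |x n|}
  · exact hmax m hm
  · have h1 : |x m| < ‖x‖ / 2 := not_le.1 hm
    exact h1.le.trans hn

theorem htal (y : Y) (hy : y ≠ 0) : ∃ i, |evY i y| = ‖y‖ ∧ DY i y ≠ 0 := by
  obtain ⟨x, rfl⟩ := e.surjective y
  simp only [evY_apply, DY_apply, e_norm]
  have hx : x ≠ 0 := by
    rintro rfl
    exact hy (map_zero e)
  have h0 : 0 < ‖x‖ := norm_pos_iff.2 hx
  rcases (T_ge x).eq_or_lt with h | h
  · obtain ⟨n, hn⟩ := exists_coord hx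
    refine ⟨Sum.inl n, ?_, ?_⟩
    · rw [ev_inl, hn, h]
    · rw [D_inl]
      have : x n ≠ 0 := by
        intro h1
        rw [h1, abs_zero] at hn
        linarith
      exact mul_ne_zero (w_pos n).ne' this
  · -- the set of indices with large value is finite
    have hS : {i : I | ‖x‖ < |ev i x|}.Finite := by
      have hA := coord_fin x (δ := ‖x‖ / 2) (by positivity)
      have hB : (⋃ n ∈ {n : ℕ | ‖x‖ / 2 ≤ |x n|}, ({n} : Set ℕ) ×ˢ
          ({m : ℕ | w n * ‖x‖ ≤ |x m|} ×ˢ (Set.univ : Set Bool))).Finite := by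
        refine hA.biUnion fun n _ => ?_
        exact (Set.finite_singleton n).prod
          ((coord_fin x (mul_pos (w_pos n) h0)).prod Set.finite_univ)
      refine (hB.image Sum.inr).subset fun i hi => ?_
      rcases i with n | ⟨n, m, s⟩
      · rw [Set.mem_ofPred_eq, ev_inl] at hi
        exact absurd (abs_coord_le x n) (not_le.2 hi)
      · by_cases hnm : n = m
        · subst hnm
          rw [Set.mem_ofPred_eq, ev_diag, abs_zero] at hi
          exact absurd hi (not_lt.2 h0.le)
        · rw [Set.mem_ofPred_eq, ev_inr hnm] at hi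
          have h1 := abs_coord_le x n
          have h2 := abs_coord_le x m
          have h3 := w_pos n
          have h4 := w_le n
          have h5 : |(1 - w n / 2) * x n| = (1 - w n / 2) * |x n| := by
            rw [abs_mul, abs_of_nonneg (by linarith)]
          have h6 : |sg s * x m| = |x m| / 2 := by
            rw [abs_mul, abs_sg]
            ring
          have h7 := abs_add_le ((1 - w n / 2) * x n) (sg s * x m)
          rw [h5, h6] at h7
          have h8 := abs_nonneg (x n)
          refine ⟨(n, m, s), ?_, rfl⟩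
          simp only [Set.mem_iUnion]
          refine ⟨n, ?_, ⟨rfl, ?_, Set.mem_univ _⟩⟩
          · show ‖x‖ / 2 ≤ |x n|
            nlinarith
          · show w n * ‖x‖ ≤ |x m|
            nlinarith
    have hne : {i : I | ‖x‖ < |ev i x|}.Nonempty := by
      by_contra hcon
      rw [Set.not_nonempty_iff_eq_empty] at hcon
      have : ‖T x‖ ≤ ‖x‖ := (BoundedContinuousFunction.norm_le h0.le).2 fun i => by
        by_contra h'
        have : i ∈ {i : I | ‖x‖ < |ev i x|} := not_le.1 h'
        rw [hcon] at this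
        exact this
      linarith
    obtain ⟨i, hi, hmax⟩ := Set.exists_max_image _ (fun i => |ev i x|) hS hne
    refine ⟨i, le_antisymm ((T x).norm_coe_le_norm i) ?_, ?_⟩
    · refine (BoundedContinuousFunction.norm_le (abs_nonneg _)).2 fun j => ?_
      by_cases hj : j ∈ {i : I | ‖x‖ < |ev i x|}
      · exact hmax j hj
      · have h1 : |ev j x| ≤ ‖x‖ := not_lt.1 hj
        have h2 : ‖x‖ < |ev i x| := hi
        exact h1.trans h2.le
    · rcases i with n | ⟨n, m, s⟩
      · rw [Set.mem_ofPred_eq, ev_inl] at hi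
        exact absurd (abs_coord_le x n) (not_le.2 hi)
      · by_cases hnm : n = m
        · subst hnm
          rw [Set.mem_ofPred_eq, ev_diag, abs_zero] at hi
          exact absurd hi (not_lt.2 h0.le)
        · rw [D_inr hnm]
          refine mul_ne_zero (w_pos n).ne' fun h1 => ?_
          rw [Set.mem_ofPred_eq, ev_inr hnm, h1, mul_zero, add_zero, abs_mul,
            abs_of_nonneg (by linarith [w_pos n, w_le n])] at hi
          have h2 := abs_coord_le x n
          nlinarith [w_pos n, w_le n, abs_nonneg (x n)]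

/-- the smooth norm -/
noncomputable def N (x : C0) : ℝ := NN evY DY (e x)

theorem N_lower (x : C0) : ‖T x‖ ≤ N x := NN_ge hev hD (e x)

theorem N_ge (x : C0) : ‖x‖ ≤ N x := (T_ge x).trans (N_lower x)

theorem N_le (x : C0) : N x ≤ 6 * ‖x‖ := by
  have h1 := NN_le hev hD (e x)
  have h2 := T_le x
  rw [e_norm] at h1
  unfold N
  linarith

/-- the smooth norm as a seminorm -/
noncomputable def NS : Seminorm ℝ C0 := Seminorm.of N
  (fun x y => by
    unfold N
    rw [map_add]
    exact NN_add hev hD hfin _ _)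
  (fun c x => by
    unfold N
    rw [map_smul, NN_smul hev hD, Real.norm_eq_abs])

theorem NS_apply (x : C0) : NS x = N x := rfl

theorem N_smooth {x : C0} (hx : x ≠ 0) : ContDiffAt ℝ ∞ N x := by
  have h1 : e x ≠ 0 := by
    intro h
    exact hx (e.injective (h.trans (map_zero e).symm))
  have h2 := NN_smooth hev hD hfin htal h1
  exact h2.comp x e.contDiff.contDiffAt

/-- unit vector -/
noncomputable def u (n : ℕ) : C0 where
  toFun m := if m = n then 1 else 0
  continuous_toFun := continuous_of_discreteTopology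
  zero_at_infty' := by
    rw [cocompact_eq_cofinite, Nat.cofinite_eq_atTop]
    refine tendsto_const_nhds.congr' ?_
    filter_upwards [eventually_gt_atTop n] with m hm
    rw [if_neg hm.ne']

theorem u_apply (n m : ℕ) : u n m = if m = n then 1 else 0 := rfl

theorem u_self (n : ℕ) : u n n = 1 := by rw [u_apply, if_pos rfl]

theorem u_ne {n m : ℕ} (h : m ≠ n) : u n m = 0 := by rw [u_apply, if_neg h]

theorem u_norm_le (n : ℕ) : ‖T (u n)‖ ≤ 1 := by
  refine (BoundedContinuousFunction.norm_le zero_le_one).2 fun i => ?_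
  show |ev i (u n)| ≤ 1
  rcases i with k | ⟨k, m, s⟩
  · rw [ev_inl, u_apply]
    split_ifs <;> simp
  · by_cases h : k = m
    · subst h
      rw [ev_diag, abs_zero]
      exact zero_le_one
    · rw [ev_inr h]
      have h3 := w_pos k
      have h4 := w_le k
      by_cases hk : k = n
      · subst hk
        rw [u_self, u_ne (Ne.symm h), mul_zero, add_zero, mul_one, abs_of_nonneg (by linarith)]
        linarith
      · rw [u_ne hk, mul_zero, zero_add, abs_mul, abs_sg]
        have : |u n m| ≤ 1 := by
          rw [u_apply]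
          split_ifs <;> simp
        linarith

theorem N_u_le (n : ℕ) : N (u n) ≤ 1 + w n := by
  have hw := w_pos n
  have h1 : ‖e (u n)‖ < 1 + w n := by
    rw [e_norm]
    have := u_norm_le n
    linarith
  have h2 : TH evY DY (e (u n), 1 + w n) = 0 := by
    unfold TH
    apply finsum_eq_zero_of_forall_eq_zero
    intro i
    apply kk_zero
    have h3 := den_pos hev (v := (e (u n), 1 + w n)) h1 i
    unfold uu
    simp only at h3 ⊢
    rw [sub_nonpos, div_le_one h3]
    rw [evY_apply, DY_apply]
    rcases i with k | ⟨k, m, s⟩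
    · rw [ev_inl, D_inl]
      by_cases hk : k = n
      · subst hk
        rw [u_self]
        nlinarith
      · rw [u_ne hk]
        nlinarith
    · by_cases h : k = m
      · subst h
        rw [ev_diag, D_diag]
        nlinarith
      · rw [ev_inr h, D_inr h]
        have h3 := w_pos k
        have h4 := w_le' k
        by_cases hk : k = n
        · subst hk
          rw [u_self, u_ne (Ne.symm h)]
          nlinarith
        · rw [u_ne hk, mul_zero, zero_add, mul_pow (sg s), ← sq_abs (sg s), abs_sg]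
          by_cases hm : m = n
          · subst hm
            rw [u_self]
            nlinarith
          · rw [u_ne hm]
            nlinarith
  exact csInf_le (NN_bdd _) ⟨h1, by rw [h2]; exact zero_le_one⟩

end Pool.Agent.Y286.CD
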