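import Mathlib
import Pool.Agent.Helper362.IdealD

set_option autoImplicit false

open Set Filter Topology

namespace Pool.Agent.Y286.MD

universe u

variable {𝕜 : Type} [RCLike 𝕜]

/-- metric approximation property of a normed space -/
def MAP (𝕜 : Type) [RCLike 𝕜] (X : Type u) [NormedAddCommGroup X] [NormedSpace 𝕜 X] : Prop :=
  ∀ K : Set X, IsCompact K → ∀ ε : ℝ, 0 < ε →
    ∃ T : X →L[𝕜] X, FiniteDimensional 𝕜 (LinearMap.range (T : X →ₗ[𝕜] X)) ∧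
      (∀ x, ‖T x‖ ≤ ‖x‖) ∧ ∀ x ∈ K, ‖T x - x‖ ≤ ε

variable {X : Type u} [NormedAddCommGroup X] [NormedSpace 𝕜 X]

/-- a point functional followed by an operator on the dual -/
noncomputable def Amap (S : StrongDual 𝕜 X →L[𝕜] StrongDual 𝕜 X) :
    X →L[𝕜] StrongDual 𝕜 (StrongDual 𝕜 X) :=
  ((ContinuousLinearMap.compL 𝕜 (StrongDual 𝕜 X) (StrongDual 𝕜 X) 𝕜).flip S).comp
    (NormedSpace.inclusionInDoubleDual 𝕜 X)

theorem Amap_apply (S : StrongDual 𝕜 X →L[𝕜] StrongDual 𝕜 X) (x : X) (f : StrongDual 𝕜 X) :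
    Amap S x f = S f x := by
  simp [Amap, NormedSpace.dual_def]

theorem fd_dual (V : Type u) [NormedAddCommGroup V] [NormedSpace 𝕜 V] [FiniteDimensional 𝕜 V] :
    FiniteDimensional 𝕜 (StrongDual 𝕜 V) := by
  have h : FiniteDimensional 𝕜 (V →ₗ[𝕜] 𝕜) := inferInstance
  exact LinearEquiv.finiteDimensional (LinearMap.toContinuousLinearMap (𝕜 := 𝕜) (E := V) (F' := 𝕜))

theorem comp_fd {Z : Type u} [NormedAddCommGroup Z] [NormedSpace 𝕜 Z] (S : Z →L[𝕜] Z)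
    (hS : FiniteDimensional 𝕜 (LinearMap.range (S : Z →ₗ[𝕜] Z))) :
    ∃ G : Submodule 𝕜 (StrongDual 𝕜 Z), FiniteDimensional 𝕜 G ∧
      ∀ φ : StrongDual 𝕜 Z, φ.comp S ∈ G := by
  obtain ⟨R, hR, hfd⟩ : ∃ R : Submodule 𝕜 Z, (∀ f, S f ∈ R) ∧ FiniteDimensional 𝕜 R :=
    ⟨LinearMap.range (S : Z →ₗ[𝕜] Z), fun f => ⟨f, rfl⟩, hS⟩
  let S' : Z →L[𝕜] R := S.codRestrict R hR
  have hfd2 : FiniteDimensional 𝕜 (StrongDual 𝕜 R) := fd_dual R
  let P : StrongDual 𝕜 R →ₗ[𝕜] StrongDual 𝕜 Z :=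
    { toFun := fun ψ => ψ.comp S'
      map_add' := fun a b => by ext; rfl
      map_smul' := fun c a => by ext; rfl }
  refine ⟨LinearMap.range P, inferInstance, fun φ => ⟨φ.comp R.subtypeL, ?_⟩⟩
  ext f
  rfl

theorem Amap_fd (S : StrongDual 𝕜 X →L[𝕜] StrongDual 𝕜 X)
    (hS : FiniteDimensional 𝕜 (LinearMap.range (S : StrongDual 𝕜 X →ₗ[𝕜] StrongDual 𝕜 X))) :
    FiniteDimensional 𝕜 (LinearMap.range (Amap S : X →ₗ[𝕜] StrongDual 𝕜 (StrongDual 𝕜 X))) := by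
  obtain ⟨G, hG, hG'⟩ := comp_fd S hS
  have hle : LinearMap.range (Amap S : X →ₗ[𝕜] StrongDual 𝕜 (StrongDual 𝕜 X)) ≤ G := by
    rintro _ ⟨x, rfl⟩
    exact hG' (NormedSpace.inclusionInDoubleDual 𝕜 X x)
  exact Submodule.finiteDimensional_of_le hle

theorem weak_step (h : MAP 𝕜 (StrongDual 𝕜 X)) {ι : Type} [Fintype ι] (x : ι → X)
    (f : ι → StrongDual 𝕜 X) (ε : ℝ) (hε : 0 < ε) :
    ∃ T : X →L[𝕜] X, FiniteDimensional 𝕜 (LinearMap.range (T : X →ₗ[𝕜] X)) ∧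
      (∀ x, ‖T x‖ ≤ ‖x‖) ∧ ∀ i, ‖f i (T (x i)) - f i (x i)‖ ≤ ε := by
  classical
  -- a bound for the data
  obtain ⟨M, hM0, hMx, hMf⟩ : ∃ M : ℝ, 0 < M ∧ (∀ i, ‖x i‖ ≤ M) ∧ ∀ i, ‖f i‖ ≤ M := by
    refine ⟨1 + ∑ i, (‖x i‖ + ‖f i‖), ?_, fun i => ?_, fun i => ?_⟩
    · positivity
    · have := Finset.single_le_sum (f := fun i => ‖x i‖ + ‖f i‖) (fun i _ => by positivity)
        (Finset.mem_univ i)
      linarith [norm_nonneg (f i)]
    · have := Finset.single_le_sum (f := fun i => ‖x i‖ + ‖f i‖) (fun i _ => by positivity)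
        (Finset.mem_univ i)
      linarith [norm_nonneg (x i)]
  obtain ⟨δ, hδ0, hδ1, hδ2⟩ : ∃ δ : ℝ, 0 < δ ∧ δ ≤ 1 ∧ δ * (M * M + M) ≤ ε := by
    refine ⟨min 1 (ε / (M * M + M)), by positivity, min_le_left _ _, ?_⟩
    have h1 : min 1 (ε / (M * M + M)) ≤ ε / (M * M + M) := min_le_right _ _
    calc min 1 (ε / (M * M + M)) * (M * M + M) ≤ ε / (M * M + M) * (M * M + M) :=
          mul_le_mul_of_nonneg_right h1 (by positivity)
      _ = ε := div_mul_cancel₀ _ (by positivity)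
  obtain ⟨S, hSfd, hS1, hS2⟩ := h (Set.range f) (Set.finite_range f).isCompact δ hδ0
  have hG := Amap_fd S hSfd
  have _ : FiniteDimensional 𝕜 (Submodule.span 𝕜 (Set.range f)) :=
    FiniteDimensional.span_of_finite 𝕜 (Set.finite_range f)
  obtain ⟨R, hR1, hR2, -⟩ := Pool.Agent.Helper362.Ideals.plr
    (LinearMap.range (Amap S : X →ₗ[𝕜] StrongDual 𝕜 (StrongDual 𝕜 X)))
    (Submodule.span 𝕜 (Set.range f)) δ hδ0
  let A' : X →L[𝕜] LinearMap.range (Amap S : X →ₗ[𝕜] StrongDual 𝕜 (StrongDual 𝕜 X)) :=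
    (Amap S).codRestrict _ fun y => ⟨y, rfl⟩
  have hA' : ∀ y, ‖A' y‖ ≤ ‖y‖ := by
    intro y
    show ‖Amap S y‖ ≤ ‖y‖
    refine ContinuousLinearMap.opNorm_le_bound _ (norm_nonneg y) fun g => ?_
    rw [Amap_apply, mul_comm]
    exact ((S g).le_opNorm y).trans (mul_le_mul_of_nonneg_right (hS1 g) (norm_nonneg y))
  refine ⟨(((1 + δ)⁻¹ : ℝ) : 𝕜) • (R.comp A'), ?_, ?_, ?_⟩
  · have hle : LinearMap.range (((((1 + δ)⁻¹ : ℝ) : 𝕜) • (R.comp A') : X →L[𝕜] X) : X →ₗ[𝕜] X) ≤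
        LinearMap.range R.toLinearMap := by
      rintro _ ⟨y, rfl⟩
      exact ⟨(((1 + δ)⁻¹ : ℝ) : 𝕜) • A' y, by simp⟩
    exact Submodule.finiteDimensional_of_le hle
  · intro y
    rw [smul_apply, norm_smul, RCLike.norm_ofReal,
      abs_of_pos (by positivity), ContinuousLinearMap.comp_apply, inv_mul_le_iff₀ (by positivity)]
    exact (R.le_opNorm _).trans (mul_le_mul hR1 (hA' y) (norm_nonneg _) (by positivity))
  · intro i
    have h1 : f i (R (A' (x i))) = S (f i) (x i) := by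
      rw [hR2 (A' (x i)) (f i) (Submodule.subset_span ⟨i, rfl⟩)]
      exact Amap_apply S (x i) (f i)
    rw [smul_apply, map_smul, ContinuousLinearMap.comp_apply, h1, smul_eq_mul]
    have h2 : ‖S (f i) (x i) - f i (x i)‖ ≤ δ * M := by
      have h3 := (S (f i) - f i).le_opNorm (x i)
      rw [sub_apply] at h3
      refine h3.trans (mul_le_mul (hS2 _ ⟨i, rfl⟩) (hMx i) (norm_nonneg _) hδ0.le)
    have h3 : ‖f i (x i)‖ ≤ M * M :=
      ((f i).le_opNorm _).trans (mul_le_mul (hMf i) (hMx i) (norm_nonneg _) hM0.le)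
    set r : ℝ := (1 + δ)⁻¹ with hr
    have hr0 : 0 < r := by positivity
    have hr1 : r ≤ 1 := by
      rw [hr]
      exact inv_le_one_of_one_le₀ (by linarith)
    have hr2 : 1 - r ≤ δ := by
      have : r * (1 + δ) = 1 := inv_mul_cancel₀ (by positivity)
      nlinarith
    have e1 : (r : 𝕜) * S (f i) (x i) - f i (x i) =
        (r : 𝕜) * (S (f i) (x i) - f i (x i)) - ((1 - r : ℝ) : 𝕜) * f i (x i) := by
      push_cast
      ring
    rw [e1]
    refine (norm_sub_le _ _).trans ?_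
    rw [norm_mul, norm_mul, RCLike.norm_ofReal, RCLike.norm_ofReal, abs_of_pos hr0,
      abs_of_nonneg (by linarith)]
    have h4 : r * ‖S (f i) (x i) - f i (x i)‖ ≤ 1 * (δ * M) :=
      mul_le_mul hr1 h2 (norm_nonneg _) zero_le_one
    have h5 : (1 - r) * ‖f i (x i)‖ ≤ δ * (M * M) :=
      mul_le_mul hr2 h3 (norm_nonneg _) hδ0.le
    nlinarith

/-- finite rank contractions -/
def FC (𝕜 : Type) [RCLike 𝕜] (X : Type u) [NormedAddCommGroup X] [NormedSpace 𝕜 X] :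
    Set (X →L[𝕜] X) :=
  {T | FiniteDimensional 𝕜 (LinearMap.range (T : X →ₗ[𝕜] X)) ∧ ∀ x, ‖T x‖ ≤ ‖x‖}

theorem FC_comb {T S : X →L[𝕜] X} (hT : T ∈ FC 𝕜 X) (hS : S ∈ FC 𝕜 X) {p q : ℝ} (hp : 0 ≤ p)
    (hq : 0 ≤ q) (hpq : p + q = 1) : (p : 𝕜) • T + (q : 𝕜) • S ∈ FC 𝕜 X := by
  obtain ⟨hT1, hT2⟩ := hT
  obtain ⟨hS1, hS2⟩ := hS
  refine ⟨?_, fun x => ?_⟩
  · have hle : LinearMap.range (((p : 𝕜) • T + (q : 𝕜) • S : X →L[𝕜] X) : X →ₗ[𝕜] X) ≤
        LinearMap.range (T : X →ₗ[𝕜] X) ⊔ LinearMap.range (S : X →ₗ[𝕜] X) := by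
      rintro _ ⟨y, rfl⟩
      refine Submodule.add_mem_sup ?_ ?_
      · exact Submodule.smul_mem _ _ ⟨y, rfl⟩
      · exact Submodule.smul_mem _ _ ⟨y, rfl⟩
    exact Submodule.finiteDimensional_of_le hle
  · rw [add_apply, smul_apply,
      smul_apply]
    refine (norm_add_le _ _).trans ?_
    rw [norm_smul, norm_smul, RCLike.norm_ofReal, RCLike.norm_ofReal, abs_of_nonneg hp,
      abs_of_nonneg hq]
    have h1 := mul_le_mul_of_nonneg_left (hT2 x) hp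
    have h2 := mul_le_mul_of_nonneg_left (hS2 x) hq
    calc p * ‖T x‖ + q * ‖S x‖ ≤ p * ‖x‖ + q * ‖x‖ := add_le_add h1 h2
      _ = (p + q) * ‖x‖ := by ring
      _ = ‖x‖ := by rw [hpq, one_mul]

theorem strong_step (h : MAP 𝕜 (StrongDual 𝕜 X)) {ι : Type} [Fintype ι] (x : ι → X)
    (ε : ℝ) (hε : 0 < ε) :
    ∃ T ∈ FC 𝕜 X, ∀ i, ‖T (x i) - x i‖ ≤ ε := by
  classical
  let _ : NormedSpace ℝ X := NormedSpace.restrictScalars ℝ 𝕜 X
  have _ : IsScalarTower ℝ 𝕜 X := RestrictScalars.isScalarTower ℝ 𝕜 X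
  let D : (X →L[𝕜] X) →ₗ[𝕜] (ι → X) :=
    { toFun := fun T i => T (x i)
      map_add' := fun T S => by funext i; rfl
      map_smul' := fun c T => by funext i; rfl }
  have hD : ∀ T i, D T i = T (x i) := fun T i => rfl
  set C : Set (ι → X) := closure (D '' FC 𝕜 X) with hC
  have hCconv : Convex ℝ C := by
    apply Convex.closure
    rintro _ ⟨T, hT, rfl⟩ _ ⟨S, hS, rfl⟩ p q hp hq hpq
    refine ⟨(p : 𝕜) • T + (q : 𝕜) • S, FC_comb hT hS hp hq hpq, ?_⟩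
    rw [LinearMap.map_add, LinearMap.map_smul, LinearMap.map_smul,
      RCLike.real_smul_eq_coe_smul (K := 𝕜) p, RCLike.real_smul_eq_coe_smul (K := 𝕜) q]
  suffices hx : x ∈ C by
    rw [hC, Metric.mem_closure_iff] at hx
    obtain ⟨b, ⟨T, hT, rfl⟩, hb⟩ := hx ε hε
    refine ⟨T, hT, fun i => ?_⟩
    have h1 := dist_le_pi_dist x (D T) i
    rw [dist_comm, dist_eq_norm] at h1
    exact (h1.trans hb.le)
  by_contra hcon
  obtain ⟨g, s, hgs, hgs'⟩ := RCLike.geometric_hahn_banach_closed_point (𝕜 := 𝕜) hCconv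
    isClosed_closure hcon
  let f : ι → StrongDual 𝕜 X := fun i =>
    g.comp (ContinuousLinearMap.single 𝕜 (fun _ : ι => X) i)
  have hf : ∀ y : ι → X, g y = ∑ i, f i (y i) := by
    intro y
    conv_lhs => rw [← Finset.univ_sum_single y]
    rw [map_sum]
    rfl
  set d : ℝ := RCLike.re (g x) - s with hd
  have hd0 : 0 < d := by rw [hd]; linarith
  obtain ⟨T, hT1, hT2, hT3⟩ := weak_step h x f (d / (2 * (Fintype.card ι + 1))) (by positivity)
  have h1 := hgs (D T) (subset_closure ⟨T, ⟨hT1, hT2⟩, rfl⟩)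
  have h2 : ‖g (D T) - g x‖ ≤ Fintype.card ι * (d / (2 * (Fintype.card ι + 1))) := by
    rw [hf, hf, ← Finset.sum_sub_distrib]
    refine (norm_sum_le _ _).trans ?_
    refine (Finset.sum_le_sum fun i _ => hT3 i).trans ?_
    rw [Finset.sum_const, Finset.card_univ, nsmul_eq_mul]
  have h3 : (Fintype.card ι : ℝ) * (d / (2 * (Fintype.card ι + 1))) ≤ d / 2 := by
    rw [mul_div_assoc', div_le_div_iff₀ (by positivity) (by positivity)]
    have : (0 : ℝ) ≤ Fintype.card ι := Nat.cast_nonneg _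
    nlinarith
  have h4 : RCLike.re (g x) - RCLike.re (g (D T)) ≤ ‖g (D T) - g x‖ := by
    rw [norm_sub_rev, ← map_sub]
    exact RCLike.re_le_norm _
  linarith

theorem MAP_of_dual (h : MAP 𝕜 (StrongDual 𝕜 X)) : MAP 𝕜 X := by
  intro K hK ε hε
  obtain ⟨t, htK, htfin, htcov⟩ := hK.finite_cover_balls (by positivity : 0 < ε / 3)
  have _ : Fintype t := htfin.fintype
  obtain ⟨T, ⟨hT1, hT2⟩, hT3⟩ : ∃ T ∈ FC 𝕜 X, ∀ i : t, ‖T (i : X) - (i : X)‖ ≤ ε / 3 := by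
    let e := Fintype.equivFin t
    obtain ⟨T, hT, hT'⟩ := strong_step h (fun i : Fin (Fintype.card t) => ((e.symm i : t) : X))
      (ε / 3) (by positivity)
    refine ⟨T, hT, fun i => ?_⟩
    have := hT' (e i)
    simpa using this
  refine ⟨T, hT1, hT2, fun x hx => ?_⟩
  have h1 := htcov hx
  rw [Set.mem_iUnion₂] at h1
  obtain ⟨z, hz, hxz⟩ := h1
  rw [Metric.mem_ball, dist_eq_norm] at hxz
  have e1 : T x - x = T (x - z) + (T z - z) - (x - z) := by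
    rw [map_sub]
    abel
  rw [e1]
  have h2 := norm_sub_le (T (x - z) + (T z - z)) (x - z)
  have h3 := norm_add_le (T (x - z)) (T z - z)
  have h4 := hT2 (x - z)
  have h5 := hT3 ⟨z, hz⟩
  simp only at h5
  linarith

end Pool.Agent.Y286.MD
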