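import Mathlib
import Pool.Agent.Y286.MapDual
import Pool.Agent.Helper234.L1MAP.Main

set_option autoImplicit false

open Set Filter Topology
open scoped ENNReal

namespace Pool.Agent.Y286.MD

open Pool.Agent.Helper234.L1MAP (HasMAP RenormFailsMAP)

/-- the same space with another norm -/
def Ren {𝕜 E : Type} [RCLike 𝕜] [NormedAddCommGroup E] [NormedSpace 𝕜 E]
    (_ : Seminorm 𝕜 E) : Type := E

theorem exists_renormed {𝕜 E : Type} [RCLike 𝕜] [NormedAddCommGroup E] [NormedSpace 𝕜 E]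
    (N : Seminorm 𝕜 E) (a b : ℝ) (ha : 0 < a) (h : ∀ x, a * ‖x‖ ≤ N x ∧ N x ≤ b * ‖x‖) :
    ∃ (X : Type) (_ : NormedAddCommGroup X) (_ : NormedSpace 𝕜 X) (e : E ≃L[𝕜] X),
      ∀ x, ‖e x‖ = N x := by
  let i1 : AddCommGroup (Ren N) := inferInstanceAs (AddCommGroup E)
  let i2 : Module 𝕜 (Ren N) := inferInstanceAs (Module 𝕜 E)
  let i3 : Norm (Ren N) := ⟨fun x => N (show E from x)⟩
  have core : NormedSpace.Core 𝕜 (Ren N) :=
    { norm_nonneg := fun x => apply_nonneg N (show E from x)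
      norm_smul := fun c x => map_smul_eq_mul N c (show E from x)
      norm_triangle := fun x y => map_add_le_add N (show E from x) (show E from y)
      norm_eq_zero_iff := fun x => by
        constructor
        · intro h0
          have h1 := (h (show E from x)).1
          have h2 : N (show E from x) = 0 := h0
          rw [h2] at h1
          have h3 : ‖(show E from x)‖ ≤ 0 := by
            by_contra hcon
            have := mul_pos ha (not_le.1 hcon)
            linarith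
          exact norm_le_zero_iff.1 h3
        · intro h0
          subst h0
          exact map_zero N }
  let i4 : NormedAddCommGroup (Ren N) := NormedAddCommGroup.ofCore core
  let i5 : NormedSpace 𝕜 (Ren N) := NormedSpace.ofCore core
  let eL : E ≃ₗ[𝕜] Ren N := LinearEquiv.refl 𝕜 E
  have hn : ∀ x : E, ‖eL x‖ = N x := fun x => rfl
  refine ⟨Ren N, i4, i5, eL.toContinuousLinearEquivOfBounds b a⁻¹ (fun x => ?_) (fun y => ?_),
    fun x => rfl⟩
  · rw [hn]
    exact (h x).2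
  · obtain ⟨x, rfl⟩ := eL.surjective y
    rw [LinearEquiv.symm_apply_apply, hn, le_inv_mul_iff₀ ha]
    exact (h x).1

/-- transport of the metric approximation property -/
theorem hasMAP_iff {𝕜 E X : Type} [RCLike 𝕜] [NormedAddCommGroup E] [NormedSpace 𝕜 E]
    [NormedAddCommGroup X] [NormedSpace 𝕜 X] (N : Seminorm 𝕜 E) (e : E ≃L[𝕜] X)
    (he : ∀ x, ‖e x‖ = N x) : HasMAP N ↔ MAP 𝕜 X := by
  constructor
  · intro h K hK ε hε
    obtain ⟨T, hT1, hT2, hT3⟩ := h (e.symm '' K) (hK.image e.symm.continuous) ε hε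
    refine ⟨(e : E →L[𝕜] X).comp (T.comp (e.symm : X →L[𝕜] E)), ?_, fun x => ?_, fun x hx => ?_⟩
    · have hle : LinearMap.range
          (((e : E →L[𝕜] X).comp (T.comp (e.symm : X →L[𝕜] E)) : X →L[𝕜] X) : X →ₗ[𝕜] X) ≤
          (LinearMap.range (T : E →ₗ[𝕜] E)).map (e : E →ₗ[𝕜] X) := by
        rintro _ ⟨y, rfl⟩
        exact ⟨T (e.symm y), ⟨e.symm y, rfl⟩, rfl⟩
      exact Submodule.finiteDimensional_of_le hle
    · show ‖e (T (e.symm x))‖ ≤ ‖x‖
      rw [he]
      refine (hT2 _).trans ?_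
      rw [← he, ContinuousLinearEquiv.apply_symm_apply]
    · show ‖e (T (e.symm x)) - x‖ ≤ ε
      have := hT3 (e.symm x) ⟨x, hx, rfl⟩
      rwa [← he, map_sub, ContinuousLinearEquiv.apply_symm_apply] at this
  · intro h K hK ε hε
    obtain ⟨T, hT1, hT2, hT3⟩ := h (e '' K) (hK.image e.continuous) ε hε
    refine ⟨(e.symm : X →L[𝕜] E).comp (T.comp (e : E →L[𝕜] X)), ?_, fun x => ?_, fun x hx => ?_⟩
    · have hle : LinearMap.range
          (((e.symm : X →L[𝕜] E).comp (T.comp (e : E →L[𝕜] X)) : E →L[𝕜] E) : E →ₗ[𝕜] E) ≤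
          (LinearMap.range (T : X →ₗ[𝕜] X)).map (e.symm : X →ₗ[𝕜] E) := by
        rintro _ ⟨y, rfl⟩
        exact ⟨T (e y), ⟨e y, rfl⟩, rfl⟩
      exact Submodule.finiteDimensional_of_le hle
    · show N (e.symm (T (e x))) ≤ N x
      rw [← he, ContinuousLinearEquiv.apply_symm_apply, ← he]
      exact hT2 _
    · show N (e.symm (T (e x)) - x) ≤ ε
      have := hT3 (e x) ⟨x, hx, rfl⟩
      rwa [← he, map_sub, ContinuousLinearEquiv.apply_symm_apply]

/-- `ℓ¹` -/
abbrev L1 (𝕜 : Type) [RCLike 𝕜] := lp (fun _ : ℕ => 𝕜) 1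
/-- `ℓ^∞` -/
abbrev Li (𝕜 : Type) [RCLike 𝕜] := lp (fun _ : ℕ => 𝕜) ∞

variable {𝕜 : Type} [RCLike 𝕜]

theorem l1_norm (x : L1 𝕜) : ‖x‖ = ∑' n, ‖x n‖ := by
  have h := lp.norm_eq_tsum_rpow (p := 1) (by simp) x
  simpa using h

theorem l1_summable (x : L1 𝕜) : Summable fun n => ‖x n‖ := by
  have h := (lp.memℓp x).summable (by simp)
  simpa using h

theorem pair_norm_le (y : Li 𝕜) (x : L1 𝕜) (n : ℕ) : ‖x n * y n‖ ≤ ‖y‖ * ‖x n‖ := by
  rw [norm_mul, mul_comm]
  exact mul_le_mul_of_nonneg_right (lp.norm_apply_le_norm ENNReal.top_ne_zero y n) (norm_nonneg _)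

theorem pair_summable (y : Li 𝕜) (x : L1 𝕜) : Summable fun n => x n * y n :=
  Summable.of_norm_bounded ((l1_summable x).mul_left ‖y‖) (pair_norm_le y x)

/-- the functional given by a bounded sequence -/
noncomputable def pairL (y : Li 𝕜) : L1 𝕜 →L[𝕜] 𝕜 :=
  LinearMap.mkContinuous
    { toFun := fun x => ∑' n, x n * y n
      map_add' := fun x z => by
        rw [← (pair_summable y x).tsum_add (pair_summable y z)]
        congr 1
        funext n
        rw [lp.coeFn_add, Pi.add_apply]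
        ring
      map_smul' := fun c x => by
        rw [RingHom.id_apply, smul_eq_mul, ← tsum_mul_left]
        congr 1
        funext n
        rw [lp.coeFn_smul, Pi.smul_apply, smul_eq_mul]
        ring } ‖y‖ (fun x => by
      rw [l1_norm, ← tsum_mul_left]
      exact tsum_of_norm_bounded (((l1_summable x).mul_left ‖y‖).hasSum) (pair_norm_le y x))

theorem pairL_apply (y : Li 𝕜) (x : L1 𝕜) : pairL y x = ∑' n, x n * y n := rfl

theorem pairL_norm_le (y : Li 𝕜) : ‖pairL y‖ ≤ ‖y‖ := by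
  unfold pairL
  exact LinearMap.mkContinuous_norm_le _ (norm_nonneg y) _

theorem pairL_single (y : Li 𝕜) (n : ℕ) : pairL y (lp.single 1 n 1) = y n := by
  rw [pairL_apply, tsum_eq_single n]
  · rw [lp.single_apply_self, one_mul]
  · intro m hm
    rw [lp.single_apply_ne _ _ _ hm, zero_mul]

theorem hasSum_basis (x : L1 𝕜) : HasSum (fun n => x n • (lp.single 1 n (1 : 𝕜) : L1 𝕜)) x := by
  have h := lp.hasSum_single (p := 1) ENNReal.one_ne_top x
  convert h using 1
  funext n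
  rw [← lp.single_smul, smul_eq_mul, mul_one]

/-- coefficients of a functional -/
noncomputable def coefL (f : L1 𝕜 →L[𝕜] 𝕜) : Li 𝕜 :=
  ⟨fun n => f (lp.single 1 n 1), memℓp_infty ⟨‖f‖, by
    rintro _ ⟨n, rfl⟩
    have := f.le_opNorm (lp.single 1 n (1 : 𝕜))
    rw [lp.norm_single (by simp), norm_one, mul_one] at this
    exact this⟩⟩

theorem coefL_apply (f : L1 𝕜 →L[𝕜] 𝕜) (n : ℕ) : coefL f n = f (lp.single 1 n 1) := rfl

/-- the dual of `ℓ¹` is `ℓ^∞` -/
noncomputable def dualE (𝕜 : Type) [RCLike 𝕜] : Li 𝕜 ≃ₗ[𝕜] StrongDual 𝕜 (L1 𝕜) where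
  toFun := pairL
  map_add' := fun y z => by
    ext x
    show pairL (y + z) x = pairL y x + pairL z x
    simp only [pairL_apply]
    rw [← (pair_summable y x).tsum_add (pair_summable z x)]
    congr 1
    funext n
    rw [lp.coeFn_add, Pi.add_apply]
    ring
  map_smul' := fun c y => by
    ext x
    show pairL (c • y) x = c • pairL y x
    simp only [pairL_apply]
    rw [smul_eq_mul, ← tsum_mul_left]
    congr 1
    funext n
    rw [lp.coeFn_smul, Pi.smul_apply, smul_eq_mul]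
    ring
  invFun := coefL
  left_inv := fun y => by
    ext n
    rw [coefL_apply, pairL_single]
  right_inv := fun f => by
    ext x
    show pairL (coefL f) x = f x
    have h1 := (hasSum_basis x).mapL f
    rw [pairL_apply, ← h1.tsum_eq]
    congr 1
    funext n
    rw [map_smul, smul_eq_mul, coefL_apply]

/-- the dual of `ℓ¹` is `ℓ^∞`, topologically -/
noncomputable def dualC (𝕜 : Type) [RCLike 𝕜] : Li 𝕜 ≃L[𝕜] StrongDual 𝕜 (L1 𝕜) :=
  (dualE 𝕜).toContinuousLinearEquivOfBounds 1 1 (fun y => by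
    rw [one_mul]
    exact pairL_norm_le y) (fun f => by
    rw [one_mul]
    refine lp.norm_le_of_forall_le (norm_nonneg f) fun n => ?_
    have := f.le_opNorm (lp.single 1 n (1 : 𝕜))
    rw [lp.norm_single (by simp), norm_one, mul_one] at this
    exact this)

theorem main (h : RenormFailsMAP 𝕜 (L1 𝕜)) : RenormFailsMAP 𝕜 (Li 𝕜) := by
  obtain ⟨N, ⟨a, b, ha, hab⟩, hN⟩ := h
  obtain ⟨X, _, _, e, he⟩ := exists_renormed N a b ha hab
  let Φ : Li 𝕜 ≃L[𝕜] StrongDual 𝕜 X :=
    (dualC 𝕜).trans (e.symm.arrowCongr (ContinuousLinearEquiv.refl 𝕜 𝕜)).symm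
  let N' : Seminorm 𝕜 (Li 𝕜) := (normSeminorm 𝕜 (StrongDual 𝕜 X)).comp (Φ : Li 𝕜 →ₗ[𝕜] StrongDual 𝕜 X)
  have hN' : ∀ y, ‖Φ y‖ = N' y := fun y => rfl
  refine ⟨N', ?_, ?_⟩
  · obtain ⟨c, hc, hc'⟩ := Φ.symm.toContinuousLinearMap.bound
    refine ⟨c⁻¹, ‖(Φ : Li 𝕜 →L[𝕜] StrongDual 𝕜 X)‖, by positivity, fun y => ⟨?_, ?_⟩⟩
    · rw [← hN', inv_mul_le_iff₀ hc]
      have := hc' (Φ y)
      simpa using this
    · rw [← hN']
      exact (Φ : Li 𝕜 →L[𝕜] StrongDual 𝕜 X).le_opNorm y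
  · intro hMAP
    exact hN ((hasMAP_iff N e he).2 (MAP_of_dual ((hasMAP_iff N' Φ hN').1 hMAP)))

theorem final : RenormFailsMAP ℝ (Li ℝ) ∧ RenormFailsMAP ℂ (Li ℂ) :=
  ⟨main Pool.Agent.Helper234.L1MAP.final.1, main Pool.Agent.Helper234.L1MAP.final.2⟩

end Pool.Agent.Y286.MD
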